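import Mathlib
import Pool.Agent.W186.AI.Spec

set_option autoImplicit false

/-! GD2: size of the second derivative of the Gamma part. -/

namespace Pool.Agent.W699.AI.GD2

open Complex Filter Topology Metric Set
open scoped Real
open Pool.Agent.W186.AI H370.DG

/-- the derivative of `lG` -/
noncomputable def l1 (u : ℂ) : ℂ := -(1 / u) - 1 / (u + 1) + ∑' n, gd n u

noncomputable def l2 (u : ℂ) : ℂ := 1 / u ^ 2 + 1 / (u + 1) ^ 2 + ∑' n : ℕ, 1 / (u + (n + 2)) ^ 2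

lemma hasDerivAt_gd (n : ℕ) {u : ℂ} (hu : 0 < u.re) :
    HasDerivAt (gd n) (1 / (u + (n + 2)) ^ 2) u := by
  have hne : u + ((n : ℂ) + 2) ≠ 0 := by
    intro h
    have := congrArg re h
    simp only [add_re, natCast_re, re_ofNat, zero_re] at this
    have : (0 : ℝ) ≤ n := Nat.cast_nonneg n
    linarith
  have h1 : HasDerivAt (fun z : ℂ => z + ((n : ℂ) + 2)) 1 u := (hasDerivAt_id u).add_const _
  have h2 := (h1.inv hne).const_sub (Real.log ((n + 2 : ℝ) / (n + 1)) : ℂ)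
  have e : (fun z => (Real.log ((n + 2 : ℝ) / (n + 1)) : ℂ) - (z + ((n : ℂ) + 2))⁻¹) = gd n := by
    funext z
    simp [gd]
  have h3 : HasDerivAt (gd n) (-(-1 / (u + ((n : ℂ) + 2)) ^ 2)) u := by
    rw [← e]
    exact h2
  convert h3 using 1
  ring

lemma bd1 (n : ℕ) {u : ℂ} (hu : 0 < u.re) :
    ‖1 / (u + ((n : ℂ) + 2)) ^ 2‖ ≤ 2 * (1 / (n + 1 + |u.im|) - 1 / (n + 2 + |u.im|)) := by
  have hn : (0 : ℝ) ≤ n := Nat.cast_nonneg n
  have hy : 0 ≤ |u.im| := abs_nonneg _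
  have h1 : ‖u + ((n : ℂ) + 2)‖ ^ 2 = (u.re + (n + 2)) ^ 2 + |u.im| ^ 2 := by
    rw [Complex.sq_norm, Complex.normSq_apply, sq_abs]
    simp only [add_re, natCast_re, re_ofNat, add_im, natCast_im, im_ofNat, add_zero]
    ring
  rw [norm_div, norm_one, norm_pow, h1]
  have e : 2 * (1 / (n + 1 + |u.im|) - 1 / (n + 2 + |u.im|)) =
      2 / ((n + 1 + |u.im|) * (n + 2 + |u.im|)) := by
    field_simp
    ring
  rw [e, div_le_div_iff₀ (by positivity) (by positivity)]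
  nlinarith [sq_nonneg ((n : ℝ) + 2 - |u.im|), mul_pos hu hu, mul_nonneg hn hu.le, hu]

lemma bd0 (n : ℕ) {u : ℂ} (hu : 0 < u.re) :
    ‖1 / (u + ((n : ℂ) + 2)) ^ 2‖ ≤ 1 / ((n : ℝ) + 1) ^ 2 := by
  have hn : (0 : ℝ) ≤ n := Nat.cast_nonneg n
  have hre : (n : ℝ) + 1 ≤ ‖u + ((n : ℂ) + 2)‖ := by
    refine le_trans ?_ (re_le_norm _)
    simp only [add_re, natCast_re, re_ofNat]
    linarith
  rw [norm_div, norm_one, norm_pow]
  apply one_div_le_one_div_of_le (by positivity)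
  exact pow_le_pow_left₀ (by positivity) hre 2

lemma summ {u : ℂ} (hu : 0 < u.re) : Summable fun n : ℕ => ‖1 / (u + ((n : ℂ) + 2)) ^ 2‖ :=
  Summable.of_nonneg_of_le (fun _ => norm_nonneg _) (fun n => bd0 n hu) summable_inv_sq

lemma tsum_bd {u : ℂ} (hu : 0 < u.re) :
    ‖∑' n : ℕ, 1 / (u + ((n : ℂ) + 2)) ^ 2‖ * (1 + |u.im|) ≤ 2 := by
  have hy : 0 ≤ |u.im| := abs_nonneg _
  have h1 : ‖∑' n : ℕ, 1 / (u + ((n : ℂ) + 2)) ^ 2‖ ≤ 2 * (1 / (1 + |u.im|)) := by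
    refine (norm_tsum_le_tsum_norm (summ hu)).trans ?_
    refine Real.tsum_le_of_sum_range_le (fun _ => norm_nonneg _) fun m => ?_
    have h2 : ∑ i ∈ Finset.range m, ‖1 / (u + ((i : ℂ) + 2)) ^ 2‖ ≤
        2 * (1 / (1 + |u.im|) - 1 / (m + 1 + |u.im|)) := by
      induction m with
      | zero => simp
      | succ m ih =>
        rw [Finset.sum_range_succ]
        have := bd1 m hu
        have e : ((m + 1 : ℕ) : ℝ) + 1 + |u.im| = m + 2 + |u.im| := by push_cast; ring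
        rw [e]
        linarith
    have h3 : 0 ≤ 1 / ((m : ℝ) + 1 + |u.im|) := by positivity
    linarith
  calc _ ≤ 2 * (1 / (1 + |u.im|)) * (1 + |u.im|) := mul_le_mul_of_nonneg_right h1 (by positivity)
    _ = 2 := by field_simp

lemma hasDerivAt_l1 {u : ℂ} (hu : 0 < u.re) : HasDerivAt l1 (l2 u) u := by
  have hne0 : u ≠ 0 := by
    intro h
    rw [h] at hu
    simp at hu
  have hne1 : u + 1 ≠ 0 := by
    intro h
    have := congrArg re h
    simp only [add_re, one_re, zero_re] at this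
    linarith
  have h1 : HasDerivAt (fun z : ℂ => ∑' n, gd n z) (∑' n : ℕ, 1 / (u + (n + 2)) ^ 2) u := by
    refine hasDerivAt_tsum_of_isPreconnected (g := gd) (g' := fun n z => 1 / (z + ((n : ℂ) + 2)) ^ 2)
      (t := {z : ℂ | 0 < z.re}) summable_inv_sq (isOpen_lt continuous_const continuous_re)
      (convex_halfSpace_re_gt 0).isPreconnected (fun n y hy => hasDerivAt_gd n hy)
      (fun n y hy => bd0 n hy) (y₀ := u) hu ?_ hu
    exact summable_gd (by linarith)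
  have h2 : HasDerivAt (fun z : ℂ => z⁻¹) (-(u ^ 2)⁻¹) u := hasDerivAt_inv hne0
  have h3 : HasDerivAt (fun z : ℂ => (z + 1)⁻¹) (-1 / (u + 1) ^ 2) u :=
    ((hasDerivAt_id u).add_const (1 : ℂ)).inv hne1
  have h4 := (h2.neg.sub h3).add h1
  have e : (fun z : ℂ => -z⁻¹ - (z + 1)⁻¹ + ∑' n, gd n z) = l1 := by
    funext z
    simp [l1]
  have h5 : HasDerivAt l1 (- -(u ^ 2)⁻¹ - -1 / (u + 1) ^ 2 + ∑' n : ℕ, 1 / (u + (n + 2)) ^ 2) u := by
    rw [← e]
    exact h4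
  convert h5 using 1
  unfold l2
  ring

/-- the derivative of `g` -/
noncomputable def g1 (s : ℂ) : ℂ :=
  1 / s + 1 / (s - 1) - 1 / 2 * ((Real.log π : ℝ) : ℂ) + l1 (s / 2) * (1 / 2)

noncomputable def g2 (s : ℂ) : ℂ :=
  -(1 / s ^ 2) - 1 / (s - 1) ^ 2 + l2 (s / 2) * (1 / 2) * (1 / 2)

lemma half_re {s : ℂ} (hs : 1 < s.re) : 0 < (s / 2).re := by
  have : (s / 2).re = s.re / 2 := by
    simp
  rw [this]
  linarith

lemma hasDerivAt_g {s : ℂ} (hs : 1 < s.re) : HasDerivAt g (g1 s) s := by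
  have h1 : HasDerivAt (fun z : ℂ => log z) (1 / s) s :=
    HasDerivAt.clog (hasDerivAt_id s) (Or.inl (by simpa using (by linarith : 0 < s.re)))
  have h2 : HasDerivAt (fun z : ℂ => log (z - 1)) (1 / (s - 1)) s :=
    HasDerivAt.clog ((hasDerivAt_id s).sub_const _) (Or.inl (by simpa using hs))
  have h3 : HasDerivAt (fun z : ℂ => z / 2) (1 / 2) s := (hasDerivAt_id s).div_const 2
  have h4 : HasDerivAt lG (l1 (s / 2)) (s / 2) := hasDerivAt_lG (half_re hs)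
  have h5 : HasDerivAt (fun z : ℂ => lG (z / 2)) (l1 (s / 2) * (1 / 2)) s :=
    HasDerivAt.comp (h₂ := lG) (h := fun z : ℂ => z / 2) s h4 h3
  exact ((h1.add h2).sub (h3.mul_const _)).add h5

lemma hasDerivAt_g1 {s : ℂ} (hs : 1 < s.re) : HasDerivAt g1 (g2 s) s := by
  have hne0 : s ≠ 0 := by
    intro h
    rw [h] at hs
    simp at hs
    linarith
  have hne1 : s - 1 ≠ 0 := by
    intro h
    have := congrArg re h
    simp only [sub_re, one_re, zero_re] at this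
    linarith
  have h1 : HasDerivAt (fun z : ℂ => z⁻¹) (-(s ^ 2)⁻¹) s := hasDerivAt_inv hne0
  have h2 : HasDerivAt (fun z : ℂ => (z - 1)⁻¹) (-1 / (s - 1) ^ 2) s :=
    ((hasDerivAt_id s).sub_const (1 : ℂ)).inv hne1
  have h3 : HasDerivAt (fun z : ℂ => z / 2) (1 / 2) s := (hasDerivAt_id s).div_const 2
  have h5 : HasDerivAt (fun z : ℂ => l1 (z / 2) * (1 / 2)) (l2 (s / 2) * (1 / 2) * (1 / 2)) s :=
    (HasDerivAt.comp (h₂ := l1) (h := fun z : ℂ => z / 2) s (hasDerivAt_l1 (half_re hs)) h3).mul_const _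
  have h6 := ((h1.add h2).sub_const (1 / 2 * ((Real.log π : ℝ) : ℂ))).add h5
  have e : (fun z : ℂ => z⁻¹ + (z - 1)⁻¹ - 1 / 2 * ((Real.log π : ℝ) : ℂ) + l1 (z / 2) * (1 / 2)) =
      g1 := by
    funext z
    simp [g1]
  have h7 : HasDerivAt g1 (-(s ^ 2)⁻¹ + -1 / (s - 1) ^ 2 + l2 (s / 2) * (1 / 2) * (1 / 2)) s := by
    rw [← e]
    exact h6
  convert h7 using 1
  unfold g2
  ring

lemma deriv2 {s : ℂ} (hs : 1 < s.re) : deriv (deriv g) s = g2 s := by
  have h : deriv g =ᶠ[𝓝 s] g1 := by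
    have : {z : ℂ | 1 < z.re} ∈ 𝓝 s := (isOpen_lt continuous_const continuous_re).mem_nhds hs
    filter_upwards [this] with z hz
    exact (hasDerivAt_g hz).deriv
  rw [h.deriv_eq, (hasDerivAt_g1 hs).deriv]

lemma sq_bd {w : ℂ} (hw : 1 ≤ w.re) : ‖1 / w ^ 2‖ * (1 + |w.im|) ≤ 2 := by
  have h1 : 1 ≤ ‖w‖ := hw.trans (re_le_norm w)
  have h2 : |w.im| ≤ ‖w‖ := abs_im_le_norm w
  rw [norm_div, norm_one, norm_pow, div_mul_eq_mul_div, one_mul, div_le_iff₀ (by positivity)]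
  nlinarith

theorem main : S_GD2 := by
  refine ⟨7, fun s hs => ?_⟩
  have hs1 : 1 < s.re := by linarith
  rw [deriv2 hs1]
  have hre : (s / 2).re = s.re / 2 := by simp
  have him : (s / 2).im = s.im / 2 := by simp
  have himab : |(s / 2).im| = |s.im| / 2 := by rw [him, abs_div, abs_of_pos (by norm_num : (0 : ℝ) < 2)]
  have b1 := sq_bd (w := s) (by linarith)
  have b2 := sq_bd (w := s - 1) (by rw [sub_re, one_re]; linarith)
  have b3 := sq_bd (w := s / 2) (by rw [hre]; linarith)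
  have b4 := sq_bd (w := s / 2 + 1) (by rw [add_re, one_re, hre]; linarith)
  have b5 := tsum_bd (u := s / 2) (by rw [hre]; linarith)
  rw [sub_im, one_im, sub_zero] at b2
  rw [himab] at b3 b5
  rw [add_im, one_im, add_zero, himab] at b4
  have hy : 0 ≤ |s.im| := abs_nonneg _
  have key : ‖g2 s‖ * (1 + |s.im|) ≤ 7 := by
    have n1 : ‖g2 s‖ ≤ ‖1 / s ^ 2‖ + ‖1 / (s - 1) ^ 2‖ + (‖1 / (s / 2) ^ 2‖ + ‖1 / (s / 2 + 1) ^ 2‖ +
        ‖∑' n : ℕ, 1 / (s / 2 + ((n : ℂ) + 2)) ^ 2‖) * (1 / 4) := by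
      unfold g2 l2
      refine (norm_add_le _ _).trans (add_le_add ?_ ?_)
      · refine (norm_sub_le _ _).trans ?_
        rw [norm_neg]
      · rw [norm_mul, norm_mul]
        have : ‖(1 / 2 : ℂ)‖ = 1 / 2 := by norm_num
        rw [this, mul_assoc]
        have : (1 / 2 * (1 / 2) : ℝ) = 1 / 4 := by norm_num
        rw [this]
        gcongr
        refine (norm_add_le _ _).trans ?_
        gcongr
        exact norm_add_le _ _
    set a1 := ‖1 / s ^ 2‖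
    set a2 := ‖1 / (s - 1) ^ 2‖
    set a3 := ‖1 / (s / 2) ^ 2‖ with ha3
    set a4 := ‖1 / (s / 2 + 1) ^ 2‖ with ha4
    set a5 := ‖∑' n : ℕ, 1 / (s / 2 + ((n : ℂ) + 2)) ^ 2‖ with ha5
    have p3 : 0 ≤ a3 := norm_nonneg _
    have p4 : 0 ≤ a4 := norm_nonneg _
    have p5 : 0 ≤ a5 := norm_nonneg _
    have n2 := mul_le_mul_of_nonneg_right n1 (by positivity : (0 : ℝ) ≤ 1 + |s.im|)
    nlinarith
  have hn : 0 ≤ ‖g2 s‖ := norm_nonneg _
  constructor
  · nlinarith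
  · nlinarith

end Pool.Agent.W699.AI.GD2
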